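import Mathlib
import Pool.Agent.Y692.UF.Gen

/-!
# Factorizations of formations whose groups have nilpotent `e`-th power subgroups

Let `e > 0` and let `F` be a formation of finite groups such that, for every group `X` in `F`, the
subgroup of `X` generated by the `e`-th powers is nilpotent.  (Every subformation of a one-generated
saturated formation is of this kind, but also for example every formation of nilpotent groups, every
formation of groups of bounded exponent, and every subformation of the saturated formation generated
by all groups of exponent dividing `e`.)  Then

* `F` is a product of non-decomposable formations if and only if `S_p F ≠ F` for every prime `p`,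
  where `S_p` is the formation of all finite `p`-groups;
* the non-decomposable factors of `F`, with their order, are unique.
-/

set_option autoImplicit false

namespace Pool.Agent.Results.MP_456268_al.PowersNilpotent

open H355R3 H355R3.UF

/-- For every group `X` in `F` the subgroup generated by the `e`-th powers is nilpotent. -/
def PowNil (e : ℕ) (F : Formation) : Prop :=
  ∀ (X : Type) [Group X] [Finite X], F.Mem X →
    Group.IsNilpotent (Subgroup.closure (Set.range fun x : X => x ^ e))

theorem result :
    (∀ M : Formation, M.OneGeneratedSaturated → ∃ e : ℕ, 0 < e ∧ ∀ F : Formation,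
      (∀ (X : Type) [Group X] [Finite X], F.Mem X → M.Mem X) → PowNil e F) ∧
    ∀ (e : ℕ) (F : Formation), 0 < e → PowNil e F →
      ((∃ l : List Formation, (∀ A ∈ l, Indec A) ∧ F = l.prod) ↔
        ∀ p : ℕ, p.Prime → pForm p * F ≠ F) ∧
      ∀ l l' : List Formation, (∀ A ∈ l, Indec A) → (∀ A ∈ l', Indec A) →
        F = l.prod → F = l'.prod → l = l' :=
  ⟨fun M hM => by
    obtain ⟨e, he, h⟩ := Pool.Agent.Y692.UF.oneGen M hM
    exact ⟨e, he, fun F hF X _ _ hX => h X (hF X hX)⟩,
    fun e F he hF => Pool.Agent.Y692.UF.gen e he F hF⟩

end Pool.Agent.Results.MP_456268_al.PowersNilpotent
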